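import Pool.Agent.H.MP_170125_pr.C

set_option autoImplicit false

namespace Pool.Agent.H58e1

open Finset MvPolynomial Matrix Pool.Agent.H1701 FreeGroup Filter Topology

variable {f : F2 → P}

theorem f_eq (hf : ∀ w, IsTracePoly w (f w)) (g : F2) : f g = (rho g).1.trace.re := by
  rw [trace_rho (hf g)]

theorem f_cyc (hf : ∀ w, IsTracePoly w (f w)) (g h : F2) : f (g * h) = f (h * g) := by
  rw [f_eq hf, f_eq hf, tr_cyc]

theorem f_mul (hf : ∀ w, IsTracePoly w (f w)) (g h : F2) :
    f (g * h) = f g * f h - f (g⁻¹ * h) := by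
  have : (rho (g * h)).1.trace = (rho g).1.trace * (rho h).1.trace - (rho (g⁻¹ * h)).1.trace := by
    rw [_root_.map_mul, _root_.map_mul, _root_.map_inv, cm, cm, ci]
    simp [trace_fin_two, mul_apply, adjugate_fin_two, vecMul, dotProduct]
    ring
  simp only [trace_rho (hf _)] at this
  simpa using congrArg QuadraticAlgebra.re this

theorem f_one (hf : ∀ w, IsTracePoly w (f w)) : f 1 = 2 := by
  rw [f_eq hf, _root_.map_one, c1]
  simp [QuadraticAlgebra.re_ofNat]

theorem f_inv (hf : ∀ w, IsTracePoly w (f w)) (g : F2) : f g⁻¹ = f g := by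
  have := f_mul hf g 1
  rw [mul_one, mul_one, f_one hf] at this
  linear_combination this

theorem f_a (hf : ∀ w, IsTracePoly w (f w)) : f (of 0) = X 0 := by
  rw [f_eq hf]; simp [rho, gA, trace_fin_two]

theorem f_b (hf : ∀ w, IsTracePoly w (f w)) : f (of 1) = X 1 := by
  rw [f_eq hf]; simp [rho, gB, trace_fin_two]

theorem f_ab (hf : ∀ w, IsTracePoly w (f w)) : f (of 0 * of 1) = X 2 := by
  rw [f_eq hf, _root_.map_mul, cm]; simp [rho, gA, gB, trace_fin_two]

theorem L_mul (hf : ∀ w, IsTracePoly w (f w)) (g h : F2) :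
    Lc (f (g * h)) ≤ Lc (f g) * Lc (f h) + Lc (f (g⁻¹ * h)) := by
  rw [f_mul hf, sub_eq_add_neg, ← Lc_neg (f (g⁻¹ * h))]
  exact (Lc_add _ _).trans (Nat.add_le_add_right (Lc_mul _ _) _)

theorem f_rot (hf : ∀ w, IsTracePoly w (f w)) (w : List Lt) (i : ℕ) :
    f (.mk (w.rotate i)) = f (.mk w) := by
  rw [List.rotate_eq_drop_append_take_mod, ← mul_mk, f_cyc hf, mul_mk, List.take_append_drop]

/-- cyclic reduction -/
def nrm : ℕ → List Lt → List Lt
  | 0, w => reduce w
  | n + 1, w => nrm n ((reduce w).rotate 1)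

theorem f_nrm (hf : ∀ w, IsTracePoly w (f w)) : ∀ (n : ℕ) (w : List Lt),
    f (.mk (nrm n w)) = f (.mk w)
  | 0, _ => congrArg f reduce.self
  | n + 1, w => by rw [nrm, f_nrm hf n, f_rot hf, reduce.self]

/-- table lookup -/
def has (T : List (List Lt × ℕ)) (w : List Lt) (n : ℕ) : Bool :=
  T.any fun e => decide (e.2 ≤ n) && (List.range (e.1.length + 1)).any fun i =>
    nrm w.length w == e.1.rotate i || nrm w.length w == (invRev e.1).rotate i

theorem has_ok (hf : ∀ w, IsTracePoly w (f w)) {T : List (List Lt × ℕ)}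
    (hT : ∀ e ∈ T, Lc (f (.mk e.1)) ≤ e.2) {w : List Lt} {n : ℕ} (h : has T w n = true) :
    Lc (f (.mk w)) ≤ n := by
  simp only [has, List.any_eq_true, Bool.and_eq_true, decide_eq_true_eq, Bool.or_eq_true,
    beq_iff_eq] at h
  obtain ⟨e, he, h1, i, -, h2⟩ := h
  rw [← f_nrm hf w.length]
  refine le_trans (le_of_eq ?_) ((hT e he).trans h1)
  rcases h2 with h2 | h2
  · rw [h2, f_rot hf]
  · rw [h2, f_rot hf, ← inv_mk, f_inv hf]

/-- growing the table -/
def grow : List (List Lt × List Lt × ℕ × ℕ × ℕ) → List (List Lt × ℕ) → List (List Lt × ℕ)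
  | [], T => T
  | (g, h, m, k, l) :: C, T => grow C
    (if has T g m && has T h k && has T (invRev g ++ h) l then
      (nrm (g ++ h).length (g ++ h), m * k + l) :: T else T)

theorem grow_ok (hf : ∀ w, IsTracePoly w (f w)) : ∀ (C : List (List Lt × List Lt × ℕ × ℕ × ℕ))
    (T : List (List Lt × ℕ)), (∀ e ∈ T, Lc (f (.mk e.1)) ≤ e.2) →
    ∀ e ∈ grow C T, Lc (f (.mk e.1)) ≤ e.2
  | [], _, hT => hT
  | (g, h, m, k, l) :: C, T, hT => grow_ok hf C _ (by
      split_ifs with hc
      · simp only [Bool.and_eq_true] at hc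
        refine List.forall_mem_cons.2 ⟨?_, hT⟩
        have h3 := has_ok hf hT hc.2
        rw [← mul_mk, ← inv_mk] at h3
        rw [f_nrm hf, ← mul_mk]
        exact (L_mul hf _ _).trans
          (add_le_add (Nat.mul_le_mul (has_ok hf hT hc.1.1) (has_ok hf hT hc.1.2)) h3)
      · exact hT)

def a : Lt := (0, true)
def A : Lt := (0, false)
def b : Lt := (1, true)
def B : Lt := (1, false)

/-- certified bounds for short words -/
def tab : List (List Lt × ℕ) := grow
  [([A], [b], 1, 1, 1), ([B], [B], 1, 1, 2), ([A, B], [A, b], 1, 2, 3), ([a], [b, A, B], 1, 1, 5),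
  ([A, b], [A, b, a, B], 2, 6, 2), ([A, B, a, b], [A, b], 6, 2, 2), ([A], [A], 1, 1, 2),
  ([B, A], [B, a], 1, 2, 3), ([B], [B, a], 1, 2, 1), ([B], [B, B, a], 1, 3, 2),
  ([A, B, a, B], [A, b], 5, 2, 5), ([A], [A, B, a, B], 1, 5, 3), ([A], [A, A, B, a, B], 1, 8, 5),
  ([B, A], [B, a, b, A, b, a], 1, 15, 13), ([B], [B, A], 1, 1, 1), ([B], [B, A, B], 1, 2, 1),
  ([B], [B, B], 1, 3, 1), ([B], [B, B, B], 1, 4, 3), ([A, B, B, B], [A, b], 3, 2, 7),
  ([A, B], [A, b, a, B, a, b], 1, 15, 13)] [([], 2), ([a], 1), ([b], 1), ([a, b], 1)]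

theorem tab_ok (hf : ∀ w, IsTracePoly w (f w)) : ∀ e ∈ tab, Lc (f (.mk e.1)) ≤ e.2 := by
  refine grow_ok hf _ _ ?_
  simp only [List.forall_mem_cons, List.not_mem_nil, false_imp_iff, implies_true, and_true]
  refine ⟨?_, ((congrArg Lc (f_a hf)).trans (Lc_X 0)).le,
    ((congrArg Lc (f_b hf)).trans (Lc_X 1)).le, ((congrArg Lc (f_ab hf)).trans (Lc_X 2)).le⟩
  rw [← one_eq_mk, f_one hf]
  exact (Lc_mono 0 2).le

/-- admissible shapes `(|u|, |v|, bound)` -/
def shp : List (ℕ × ℕ × ℕ) := [(1, 0, 1), (1, 1, 1), (2, 0, 2), (3, 1, 6), (2, 4, 15), (1, 7, 28)]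

/-- the word starts with a cancelling pair or with a good `u v u` -/
def red (T : List (List Lt × ℕ)) (w : List Lt) : Bool :=
  (decide (2 ≤ w.length) && (w.drop 1).take 1 == invRev (w.take 1)) ||
  shp.any fun s => decide (2 * s.1 + s.2.1 ≤ w.length) &&
    w.take s.1 == (w.drop (s.1 + s.2.1)).take s.1 && has T (w.take (s.1 + s.2.1)) s.2.2

/-- search tree -/
def tree (T : List (List Lt × ℕ)) : ℕ → List Lt → Bool
  | 0, w => red T w
  | n + 1, w => red T w || [a, A, b, B].all fun l => tree T n (l :: w)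

theorem tree_ok (T : List (List Lt × ℕ)) : ∀ (n : ℕ) (w p : List Lt), tree T n w = true →
    n ≤ p.length → ∃ p1 p2, p = p1 ++ p2 ∧ red T (p2 ++ w) = true
  | 0, _, p, h, _ => ⟨p, [], by simp, h⟩
  | n + 1, w, p, h, hp => by
    simp only [tree, Bool.or_eq_true, List.all_eq_true] at h
    rcases h with h | h
    · exact ⟨p, [], by simp, h⟩
    obtain rfl | ⟨q, l, rfl⟩ := List.eq_nil_or_concat' p
    · simp at hp
    obtain ⟨p1, p2, rfl, h2⟩ := tree_ok T n (l :: w) q (h l ((by decide : ∀ l, l ∈ [a, A, b, B]) l))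
      (by simpa using hp)
    exact ⟨p1, p2 ++ [l], by simp, by simpa using h2⟩

theorem tree_true : tree tab 10 [] = true := by decide +kernel

open Real goldenRatio

theorem shp_ok : ∀ s ∈ shp, (s.2.2 : ℝ) * φ ^ s.1 + φ ^ s.2.1 ≤ φ ^ (2 * s.1 + s.2.1) := by
  have h1 := goldenRatio_sq
  have h2 : (1.6 : ℝ) < φ := by nlinarith [one_lt_goldenRatio]
  have h3 : φ ^ 3 = 2 * φ + 1 := by linear_combination (φ + 1) * h1
  have h4 : φ ^ 4 = 3 * φ + 2 := by linear_combination φ * h3 + 2 * h1
  have h7 : φ ^ 7 = 13 * φ + 8 := by linear_combination φ ^ 4 * h3 + (2 * φ + 1) * h4 + 6 * h1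
  have h8 : φ ^ 8 = 21 * φ + 13 := by linear_combination φ * h7 + 13 * h1
  have h9 : φ ^ 9 = 34 * φ + 21 := by linear_combination φ * h8 + 21 * h1
  have h0 : φ < 1.7 := by nlinarith
  generalize φ = t at *
  simp only [shp, List.forall_mem_cons, List.not_mem_nil, false_imp_iff, implies_true]
  norm_num
  refine ⟨?_, ?_, ?_, ?_, ?_, ?_⟩ <;> linarith

theorem upper (hf : ∀ w, IsTracePoly w (f w)) :
    ∃ K : ℝ, 0 < K ∧ ∀ w : List Lt, (Lc (f (.mk w)) : ℝ) ≤ K * φ ^ w.length := by
  obtain ⟨c, hc, h1, -⟩ := ex_const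
  have g1 := one_lt_goldenRatio
  refine ⟨((2 * c ^ 10 : ℕ) : ℝ), by positivity, fun w => ?_⟩
  set K : ℝ := ((2 * c ^ 10 : ℕ) : ℝ) with hK
  have K0 : 0 ≤ K := by positivity
  induction hn : w.length using Nat.strong_induction_on generalizing w with
  | _ n ih =>
    rcases le_or_gt 10 n with h | h
    swap
    · refine le_trans ?_ (le_mul_of_one_le_right K0 (one_le_pow₀ g1.le))
      rw [hK]
      exact_mod_cast (Lc_le_ng hf _).trans ((h1 _).trans (Nat.mul_le_mul_left _
        (Nat.pow_le_pow_right (by omega) (norm_mk_le.trans (by omega)))))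
    obtain ⟨p, q, rfl, h2⟩ := tree_ok tab 10 [] w tree_true (hn ▸ h)
    simp only [List.append_nil, red, Bool.or_eq_true, Bool.and_eq_true, decide_eq_true_eq,
      beq_iff_eq, List.any_eq_true] at h2
    rw [List.length_append] at hn
    rcases h2 with ⟨h2, h3⟩ | ⟨s, hs, ⟨h2, h3⟩, h4⟩
    · have e : FreeGroup.mk (p ++ q) = .mk (p ++ q.drop 2) := by
        conv_lhs => rw [← List.take_append_drop 1 q, ← List.take_append_drop 1 (q.drop 1), h3]
        simp only [← mul_mk, ← inv_mk, mul_inv_cancel_left, List.drop_drop]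
      rw [e]
      refine (ih _ (by simp; omega) _ rfl).trans ?_
      exact mul_le_mul_of_nonneg_left (pow_le_pow_right₀ g1.le (by simp; omega)) K0
    · obtain ⟨i, j, m⟩ := s
      have hi : 1 ≤ i := (by decide : ∀ s ∈ shp, 1 ≤ s.1) _ hs
      have h5 := shp_ok _ hs
      have h6 := has_ok hf (tab_ok hf) h4
      simp only at h2 h3 h5 h6
      obtain ⟨u, v, r, rfl, rfl, rfl⟩ : ∃ u v r : List Lt, u.length = i ∧ v.length = j ∧
          q = u ++ v ++ (u ++ r) := by
        refine ⟨q.take i, (q.drop i).take j, q.drop (i + j + i), by simp; omega, by simp; omega, ?_⟩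
        rw [← List.take_add]
        conv_rhs => rw [h3]
        rw [← List.drop_drop (j := i + j), List.take_append_drop, List.take_append_drop]
      rw [List.take_left' (by simp)] at h6
      have h7 := L_mul hf (.mk (u ++ v)) (.mk (u ++ r ++ p))
      have e : (FreeGroup.mk (u ++ v))⁻¹ * .mk (u ++ r ++ p) = .mk (invRev v ++ r ++ p) := by
        simp only [← mul_mk, ← inv_mk]; group
      rw [e, mul_mk] at h7
      simp only [List.length_append] at hn
      have i1 := ih (u.length + (r.length + p.length)) (by omega) (u ++ r ++ p) (by simp)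
      have i2 := ih (v.length + (r.length + p.length)) (by omega) (invRev v ++ r ++ p) (by simp)
      rw [← mul_mk, f_cyc hf, mul_mk, List.append_assoc (u ++ v),
        show n = 2 * u.length + v.length + (r.length + p.length) by omega]
      rw [pow_add] at i1 i2 ⊢
      have h8 : (Lc (f (.mk (u ++ v ++ (u ++ r ++ p)))) : ℝ) ≤
          m * Lc (f (.mk (u ++ r ++ p))) + Lc (f (.mk (invRev v ++ r ++ p))) := by
        exact_mod_cast h7.trans (Nat.add_le_add_right (Nat.mul_le_mul_right _ h6) _)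
      have h9 := mul_le_mul_of_nonneg_left i1 (Nat.cast_nonneg m)
      have h10 := mul_le_mul_of_nonneg_left h5
        (show 0 ≤ K * φ ^ (r.length + p.length) by positivity)
      linarith

theorem lower (hf : ∀ w, IsTracePoly w (f w)) (n : ℕ) : φ ^ n / 2 ≤ Lc (f (of 0 ^ n)) := by
  have h1 : ∀ g : P, ‖aeval (fun _ => Complex.I) g‖ ≤ Lc g := fun g => by
    have := kr_eval (fun _ => Complex.I) 1 g 1
    simp only [one_pow, mul_one] at this
    rw [← this, Polynomial.eval_eq_sum_range]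
    simp only [one_pow, mul_one]
    exact (norm_sum_le _ _).trans (kr_l1 (by simp) _ _ _)
  have h2 : ∀ n : ℕ, ∃ s : ℝ, φ ^ n / 2 ≤ s ∧
      aeval (fun _ => Complex.I) (f (of 0 ^ n)) = Complex.I ^ n * s := by
    intro n
    induction n using Nat.twoStepInduction with
    | zero => exact ⟨2, by norm_num, by simp [f_one hf, map_ofNat]⟩
    | one => exact ⟨1, by linarith [goldenRatio_lt_two], by simp [f_a hf]⟩
    | more n i1 i2 =>
      obtain ⟨s, s1, s2⟩ := i1
      obtain ⟨t, t1, t2⟩ := i2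
      refine ⟨s + t, by linarith [goldenRatio_pow_sub_goldenRatio_pow n], ?_⟩
      rw [pow_succ', f_mul hf, pow_succ' (of 0), inv_mul_cancel_left, ← pow_succ', map_sub,
        _root_.map_mul,
        s2, t2, f_a hf, aeval_X]
      push_cast
      linear_combination (-(Complex.I ^ n * s)) * Complex.I_sq
  obtain ⟨s, s1, s2⟩ := h2 n
  refine s1.trans (le_trans ?_ (h1 _))
  rw [s2]
  simp [le_abs_self]

theorem sqz {x : ℕ → ℝ} {c K : ℝ} (hc : 0 < c) (hK : 0 < K)
    (h : ∀ n, φ ^ n / 2 ≤ (c * n + 1) ^ 3 * x n ∧ x n ≤ K * φ ^ n) :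
    Tendsto (fun n : ℕ => x n ^ ((1 : ℝ) / n)) atTop (𝓝 φ) := by
  have g0 := goldenRatio_pos
  have x0 : ∀ n, 0 < x n := fun n =>
    (pos_iff_pos_of_mul_pos (lt_of_lt_of_le (by positivity) (h n).1)).1 (by positivity)
  have t0 : Tendsto (fun n : ℕ => 3 * Real.log (c * n + 1) / n) atTop (𝓝 0) := by
    have t1 := (Real.tendsto_pow_log_div_mul_add_atTop (1 / c) (-1 / c) 1 (by positivity)).comp
      (tendsto_atTop_add_const_right _ 1 (tendsto_natCast_atTop_atTop.const_mul_atTop hc))
    have t2 := t1.const_mul 3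
    rw [mul_zero] at t2
    refine t2.congr fun n => ?_
    simp only [Function.comp_apply, pow_one]
    rw [mul_div_assoc]
    congr 2
    field_simp
    ring
  have t : Tendsto (fun n : ℕ => Real.log (x n) / n) atTop (𝓝 (Real.log φ)) := by
    have t1 := ((tendsto_const_div_atTop_nhds_zero_nat (Real.log 2)).add t0).const_sub (Real.log φ)
    have t2 := (tendsto_const_div_atTop_nhds_zero_nat (Real.log K)).const_add (Real.log φ)
    simp only [add_zero, sub_zero] at t1 t2
    refine tendsto_of_tendsto_of_tendsto_of_le_of_le' t1 t2 ?_ ?_ <;>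
      filter_upwards [eventually_gt_atTop 0] with n hn <;>
      have n0 : (0 : ℝ) < n := by exact_mod_cast hn
    · have := Real.log_le_log (by positivity) (h n).1
      rw [Real.log_div (by positivity) two_ne_zero, Real.log_mul (by positivity) (x0 n).ne',
        Real.log_pow, Real.log_pow] at this
      rw [← add_div, sub_le_iff_le_add, ← add_div, le_div_iff₀ n0]
      push_cast at this
      linarith
    · have := Real.log_le_log (x0 n) (h n).2
      rw [Real.log_mul hK.ne' (by positivity), Real.log_pow] at this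
      rw [← sub_le_iff_le_add, ← sub_div, div_le_iff₀ n0]
      linarith
  have := (Real.continuous_exp.tendsto _).comp t
  rw [Real.exp_log g0] at this
  exact this.congr fun n => by
    rw [Function.comp_apply, Real.rpow_def_of_pos (x0 n), mul_one_div]

end Pool.Agent.H58e1
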